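import Mathlib

/-!
A counterexample to the uniform-bound question for matrix products with chosen factors.

Two `2 × 2` matrices `X = diag(2, 1)` and `V = [[0, 2], [0, 0]]` are imposed, and the chooser has
the two matrices `1` and `G = [[0, 0], [1, 1]]`.  Every imposed sequence admits choices keeping the
products bounded, but on the periodic sequence `(X^m V)^∞` every choice produces a product with an
entry of size at least `2 ^ m`.
-/

namespace Pool.Agent.Results.MP_8c8deb_an.NoUniformBound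

/-- The partial products: `P 0 = 1` and `P (n + 1) = A n * B n * P n`, so that, with
`A_k = A (k - 1)` and `B_k = B (k - 1)`, `P n = A_n B_n A_{n-1} B_{n-1} ⋯ A_1 B_1` for `n ≥ 1`. -/
def prodSeq {d : ℕ} (A B : ℕ → Matrix (Fin d) (Fin d) ℝ) : ℕ → Matrix (Fin d) (Fin d) ℝ
  | 0 => 1
  | n + 1 => A n * B n * prodSeq A B n

/-- `N` is a norm on the real vector space of `d × d` real matrices. -/
structure IsMatrixNorm {d : ℕ} (N : Matrix (Fin d) (Fin d) ℝ → ℝ) : Prop where
  nonneg : ∀ M, 0 ≤ N M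
  eq_zero : ∀ M, N M = 0 → M = 0
  smul : ∀ (c : ℝ) M, N (c • M) = |c| * N M
  add_le : ∀ M M', N (M + M') ≤ N M + N M'

/-- Linear functionals are bounded with respect to any norm on a finite-dimensional space. -/
lemma functional_bound {E : Type} [AddCommGroup E] [Module ℝ E] [FiniteDimensional ℝ E]
    (N : E → ℝ) (h0 : ∀ x, 0 ≤ N x) (h1 : ∀ x, N x = 0 → x = 0)
    (h2 : ∀ (c : ℝ) x, N (c • x) = |c| * N x) (h3 : ∀ x y, N (x + y) ≤ N x + N y)
    (f : E →ₗ[ℝ] ℝ) : ∃ K : ℝ, 0 ≤ K ∧ ∀ x, |f x| ≤ K * N x := by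
  let _ : Norm E := ⟨N⟩
  have core : NormedSpace.Core ℝ E :=
    { norm_nonneg := h0
      norm_smul := by
        intro c x
        change N (c • x) = ‖c‖ * N x
        rw [h2, Real.norm_eq_abs]
      norm_triangle := h3
      norm_eq_zero_iff := by
        intro x
        constructor
        · exact h1 x
        · rintro rfl
          change N 0 = 0
          have := h2 0 (0 : E)
          simpa using this }
  let _ : NormedAddCommGroup E := NormedAddCommGroup.ofCore core
  let _ : NormedSpace ℝ E := NormedSpace.ofCore core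
  let g : E →L[ℝ] ℝ := LinearMap.toContinuousLinearMap f
  refine ⟨‖g‖, norm_nonneg _, fun x => ?_⟩
  have h := g.le_opNorm x
  rw [Real.norm_eq_abs] at h
  exact h

lemma entry_bound {d : ℕ} {N : Matrix (Fin d) (Fin d) ℝ → ℝ} (hN : IsMatrixNorm N) (i j : Fin d) :
    ∃ K : ℝ, 0 ≤ K ∧ ∀ M, |M i j| ≤ K * N M := by
  have := functional_bound N hN.nonneg hN.eq_zero hN.smul hN.add_le
    (Matrix.entryLinearMap ℝ ℝ i j)
  simpa using this

/-- The first imposed matrix. -/
def mX : Matrix (Fin 2) (Fin 2) ℝ := !![2, 0; 0, 1]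
/-- The second imposed matrix. -/
def mV : Matrix (Fin 2) (Fin 2) ℝ := !![0, 2; 0, 0]
/-- The non-identity choice. -/
def mG : Matrix (Fin 2) (Fin 2) ℝ := !![0, 0; 1, 1]

lemma mX_mul (M : Matrix (Fin 2) (Fin 2) ℝ) : mX * M = !![2 * M 0 0, 2 * M 0 1; M 1 0, M 1 1] := by
  ext i j; fin_cases i <;> fin_cases j <;> simp [mX, Matrix.mul_apply, Fin.sum_univ_two]

lemma mV_mul (M : Matrix (Fin 2) (Fin 2) ℝ) : mV * M = !![2 * M 1 0, 2 * M 1 1; 0, 0] := by
  ext i j; fin_cases i <;> fin_cases j <;> simp [mV, Matrix.mul_apply, Fin.sum_univ_two]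

lemma mG_mul (M : Matrix (Fin 2) (Fin 2) ℝ) :
    mG * M = !![0, 0; M 0 0 + M 1 0, M 0 1 + M 1 1] := by
  ext i j; fin_cases i <;> fin_cases j <;> simp [mG, Matrix.mul_apply, Fin.sum_univ_two]

/-- A sequence of matrices that is eventually constant is bounded. -/
lemma bounded_of_eventually_const {N : Matrix (Fin 2) (Fin 2) ℝ → ℝ} (h0 : ∀ M, 0 ≤ N M)
    (P : ℕ → Matrix (Fin 2) (Fin 2) ℝ) (m : ℕ) (hP : ∀ n, m ≤ n → P n = P m) :
    ∃ C : ℝ, ∀ n, N (P n) ≤ C := by
  refine ⟨∑ k ∈ Finset.range (m + 1), N (P k), fun n => ?_⟩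
  rcases le_or_gt m n with h | h
  · rw [hP n h]
    exact Finset.single_le_sum (f := fun k => N (P k)) (fun k _ => h0 _)
      (Finset.mem_range.2 (Nat.lt_succ_self m))
  · exact Finset.single_le_sum (f := fun k => N (P k)) (fun k _ => h0 _)
      (Finset.mem_range.2 (by omega))

/-- Case of eventually only `X`: always choose `G`. -/
lemma bounded_go (A : ℕ → Matrix (Fin 2) (Fin 2) ℝ) (m : ℕ) (hA : ∀ n, m ≤ n → A n = mX) :
    ∀ n, m + 1 ≤ n → prodSeq A (fun _ => mG) n = prodSeq A (fun _ => mG) (m + 1) := by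
  intro n hn
  induction n, hn using Nat.le_induction with
  | base => rfl
  | succ n hn ih =>
    obtain ⟨k, rfl⟩ : ∃ k, n = k + 1 := ⟨n - 1, by omega⟩
    rw [← ih]
    have h1 : A (k + 1) = mX := hA _ (by omega)
    have h2 : A k = mX := hA _ (by omega)
    have key : ∀ Q : Matrix (Fin 2) (Fin 2) ℝ, mX * mG * (mX * mG * Q) = mX * mG * Q := by
      intro Q
      simp only [Matrix.mul_assoc]
      rw [mX_mul (mG * (mX * (mG * Q))), mG_mul (mX * (mG * Q)), mX_mul (mG * Q), mG_mul Q]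
      ext i j; fin_cases i <;> fin_cases j <;> simp
    change A (k + 1) * mG * (A k * mG * prodSeq A (fun _ => mG) k) =
      A k * mG * prodSeq A (fun _ => mG) k
    rw [h1, h2, key]

lemma stay_upper (A : ℕ → Matrix (Fin 2) (Fin 2) ℝ) (hA : ∀ n, A n = mX ∨ A n = mV) (n : ℕ) :
    prodSeq A (fun _ => 1) n 1 0 = 0 := by
  induction n with
  | zero => simp [prodSeq]
  | succ n ih =>
    rcases hA n with h | h
    · simp only [prodSeq, h, Matrix.mul_one, mX_mul]
      simpa using ih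
    · simp only [prodSeq, h, Matrix.mul_one, mV_mul]
      simp

lemma stay_strict (A : ℕ → Matrix (Fin 2) (Fin 2) ℝ) (hA : ∀ n, A n = mX ∨ A n = mV) (i : ℕ)
    (hi : A i = mV) (n : ℕ) (hn : i + 1 ≤ n) :
    prodSeq A (fun _ => 1) n 0 0 = 0 ∧ prodSeq A (fun _ => 1) n 1 0 = 0 ∧
      prodSeq A (fun _ => 1) n 1 1 = 0 := by
  induction n, hn using Nat.le_induction with
  | base =>
    simp only [prodSeq, hi, Matrix.mul_one, mV_mul]
    simp [stay_upper A hA i]
  | succ n hn ih =>
    rcases hA n with h | h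
    · simp only [prodSeq, h, Matrix.mul_one, mX_mul]
      simpa using ih
    · simp only [prodSeq, h, Matrix.mul_one, mV_mul]
      simpa using ih.2.1

lemma stay_zero (A : ℕ → Matrix (Fin 2) (Fin 2) ℝ) (hA : ∀ n, A n = mX ∨ A n = mV) (i j : ℕ)
    (hi : A i = mV) (hj : A j = mV) (hij : i + 1 ≤ j) (n : ℕ) (hn : j + 1 ≤ n) :
    prodSeq A (fun _ => 1) n = 0 := by
  induction n, hn using Nat.le_induction with
  | base =>
    obtain ⟨h1, h2, h3⟩ := stay_strict A hA i hi j hij
    simp only [prodSeq, hj, Matrix.mul_one, mV_mul]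
    ext a b; fin_cases a <;> fin_cases b <;> simp [h2, h3]
  | succ n hn ih =>
    simp only [prodSeq, ih, Matrix.mul_zero]

/-- Condition (H). -/
lemma cond_H {N : Matrix (Fin 2) (Fin 2) ℝ → ℝ} (h0 : ∀ M, 0 ≤ N M)
    (A : ℕ → Matrix (Fin 2) (Fin 2) ℝ) (hA : ∀ n, A n = mX ∨ A n = mV) :
    ∃ B : ℕ → Matrix (Fin 2) (Fin 2) ℝ, (∀ n, B n = 1 ∨ B n = mG) ∧
      ∃ C : ℝ, ∀ n, N (prodSeq A B n) ≤ C := by
  by_cases h : ∃ m, ∀ n, m ≤ n → A n = mX
  · obtain ⟨m, hm⟩ := h
    exact ⟨fun _ => mG, fun _ => Or.inr rfl,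
      bounded_of_eventually_const h0 _ (m + 1) (bounded_go A m hm)⟩
  · push Not at h
    obtain ⟨i, -, hi⟩ := h 0
    obtain ⟨j, hij, hj⟩ := h (i + 1)
    have hi' : A i = mV := (hA i).resolve_left hi
    have hj' : A j = mV := (hA j).resolve_left hj
    refine ⟨fun _ => 1, fun _ => Or.inl rfl,
      bounded_of_eventually_const h0 _ (j + 1) fun n hn => ?_⟩
    rw [stay_zero A hA i j hi' hj' hij n hn, stay_zero A hA i j hi' hj' hij (j + 1) le_rfl]

/-- The periodic sequence `(X^m V)^∞`. -/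
def perSeq (m : ℕ) (n : ℕ) : Matrix (Fin 2) (Fin 2) ℝ :=
  if n % (m + 1) = m then mV else mX

/-- The key invariant for the first column along `(X^m V)^∞`. -/
lemma invariant (m : ℕ) (B : ℕ → Matrix (Fin 2) (Fin 2) ℝ) (hB : ∀ n, B n = 1 ∨ B n = mG)
    (hsmall : ∀ n, prodSeq (perSeq m) B n 0 0 < 2 ^ m) (n : ℕ) :
    (prodSeq (perSeq m) B n 1 0 = 0 ∧
        (2 : ℝ) ^ (n / (m + 1) + n % (m + 1)) ≤ prodSeq (perSeq m) B n 0 0) ∨
      (prodSeq (perSeq m) B n 0 0 = 0 ∧
        (2 : ℝ) ^ (n / (m + 1)) ≤ prodSeq (perSeq m) B n 1 0) := by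
  induction n with
  | zero => left; simp [prodSeq]
  | succ n ih =>
    have hs := hsmall n
    set P := prodSeq (perSeq m) B n with hP
    have hstep : prodSeq (perSeq m) B (n + 1) = perSeq m n * (B n * P) := by
      rw [hP]; simp only [prodSeq, Matrix.mul_assoc]
    rw [hstep]
    by_cases hn : n % (m + 1) = m
    · -- letter `V`
      have hdiv : (n + 1) / (m + 1) = n / (m + 1) + 1 := by
        have h1 := Nat.div_add_mod n (m + 1)
        rw [hn] at h1
        have h2 : n + 1 = (m + 1) * (n / (m + 1) + 1) := by linarith [h1]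
        conv_lhs => rw [h2]
        exact Nat.mul_div_cancel_left _ (Nat.succ_pos m)
      have hmod : (n + 1) % (m + 1) = 0 := by
        rw [Nat.add_mod, hn]
        rcases Nat.eq_zero_or_pos m with rfl | hm
        · simp
        · rw [Nat.mod_eq_of_lt (show 1 < m + 1 by omega)]; simp
      have hper : perSeq m n = mV := by simp [perSeq, hn]
      rw [hdiv, hmod, hper]
      rcases ih with ⟨h1, h2⟩ | ⟨h1, h2⟩
      · exfalso
        rw [hn] at h2
        have : (2 : ℝ) ^ m ≤ 2 ^ (n / (m + 1) + m) :=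
          pow_le_pow_right₀ (by norm_num) (Nat.le_add_left m _)
        linarith
      · left
        rcases hB n with hb | hb
        · rw [hb, Matrix.one_mul, mV_mul]
          simp only [Matrix.of_apply, Matrix.cons_val', Matrix.cons_val_zero,
            Matrix.cons_val_one, Matrix.cons_val_fin_one, Nat.add_zero, pow_succ]
          exact ⟨trivial, by linarith⟩
        · rw [hb, mG_mul, mV_mul]
          simp only [Matrix.of_apply, Matrix.cons_val', Matrix.cons_val_zero,
            Matrix.cons_val_one, Matrix.cons_val_fin_one, Nat.add_zero, pow_succ, h1]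
          exact ⟨trivial, by linarith⟩
    · -- letter `X`
      have hlt : n % (m + 1) < m + 1 := Nat.mod_lt _ (Nat.succ_pos m)
      have hsucc : (n + 1) / (m + 1) = n / (m + 1) ∧ (n + 1) % (m + 1) = n % (m + 1) + 1 := by
        have h1 := Nat.div_add_mod n (m + 1)
        have h2 : n % (m + 1) + 1 < m + 1 := by omega
        have h3 : n + 1 = (n % (m + 1) + 1) + (m + 1) * (n / (m + 1)) := by omega
        constructor
        · conv_lhs => rw [h3]
          rw [Nat.add_mul_div_left _ _ (Nat.succ_pos m), Nat.div_eq_of_lt h2, Nat.zero_add]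
        · conv_lhs => rw [h3]
          rw [Nat.add_mul_mod_self_left, Nat.mod_eq_of_lt h2]
      have hper : perSeq m n = mX := by simp [perSeq, hn]
      rw [hsucc.1, hsucc.2, hper]
      rcases ih with ⟨h1, h2⟩ | ⟨h1, h2⟩
      · rcases hB n with hb | hb
        · left
          rw [hb, Matrix.one_mul, mX_mul]
          simp only [Matrix.of_apply, Matrix.cons_val', Matrix.cons_val_zero,
            Matrix.cons_val_one, Matrix.cons_val_fin_one, h1, ← Nat.add_assoc, pow_succ]
          exact ⟨trivial, by linarith⟩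
        · right
          rw [hb, mG_mul, mX_mul]
          simp only [Matrix.of_apply, Matrix.cons_val', Matrix.cons_val_zero,
            Matrix.cons_val_one, Matrix.cons_val_fin_one, h1, mul_zero, add_zero]
          refine ⟨trivial, le_trans ?_ h2⟩
          exact pow_le_pow_right₀ (by norm_num) (by omega)
      · right
        rcases hB n with hb | hb
        · rw [hb, Matrix.one_mul, mX_mul]
          simp only [Matrix.of_apply, Matrix.cons_val', Matrix.cons_val_zero,
            Matrix.cons_val_one, Matrix.cons_val_fin_one, h1, mul_zero]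
          exact ⟨trivial, h2⟩
        · rw [hb, mG_mul, mX_mul]
          simp only [Matrix.of_apply, Matrix.cons_val', Matrix.cons_val_zero,
            Matrix.cons_val_one, Matrix.cons_val_fin_one, h1, mul_zero, zero_add]
          exact ⟨trivial, h2⟩

/-- Along `(X^m V)^∞` (with `m ≥ 1`) every choice produces an entry of size at least `2 ^ m`
in some `P n` with `n ≥ 1`. -/
lemma large_entry (m : ℕ) (hm : 1 ≤ m) (B : ℕ → Matrix (Fin 2) (Fin 2) ℝ)
    (hB : ∀ n, B n = 1 ∨ B n = mG) :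
    ∃ n, 1 ≤ n ∧ ((2 : ℝ) ^ m ≤ |prodSeq (perSeq m) B n 0 0| ∨
      (2 : ℝ) ^ m ≤ |prodSeq (perSeq m) B n 1 0|) := by
  by_contra hcon
  push Not at hcon
  have hsmall : ∀ n, prodSeq (perSeq m) B n 0 0 < 2 ^ m := by
    intro n
    rcases Nat.eq_zero_or_pos n with rfl | hn
    · simp only [prodSeq, Matrix.one_apply_eq]
      exact one_lt_pow₀ (by norm_num) (by omega)
    · exact lt_of_le_of_lt (le_abs_self _) (hcon n hn).1
  have hinv := invariant m B hB hsmall (m * (m + 1))
  have hd : m * (m + 1) / (m + 1) = m := Nat.mul_div_cancel _ (Nat.succ_pos m)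
  have hmod : m * (m + 1) % (m + 1) = 0 := Nat.mul_mod_left m (m + 1)
  rw [hd, hmod] at hinv
  have hpos : 1 ≤ m * (m + 1) := by nlinarith
  obtain ⟨hc1, hc2⟩ := hcon _ hpos
  rcases hinv with ⟨-, h⟩ | ⟨-, h⟩
  · rw [Nat.add_zero] at h
    exact absurd (le_trans h (le_abs_self _)) (not_le.2 hc1)
  · exact absurd (le_trans h (le_abs_self _)) (not_le.2 hc2)

/-- **Disproof of the uniform bound.**  There are a dimension `d ≥ 1` and finite nonempty sets
`𝓐, 𝓑` of real `d × d` matrices such that for every norm `N` on `d × d` matrices: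
condition (H) holds (every sequence in `𝓐` admits a sequence in `𝓑` with `sup_{n ≥ 1} N (P_n) < ∞`),
but there is no constant `C > 0` such that every sequence in `𝓐` admits a sequence in `𝓑` with
`N (P_n) ≤ C` for all `n ≥ 1`. -/
theorem result :
    ∃ (d : ℕ) (𝓐 𝓑 : Set (Matrix (Fin d) (Fin d) ℝ)),
      1 ≤ d ∧ 𝓐.Finite ∧ 𝓐.Nonempty ∧ 𝓑.Finite ∧ 𝓑.Nonempty ∧
      ∀ N : Matrix (Fin d) (Fin d) ℝ → ℝ, IsMatrixNorm N →
        (∀ A : ℕ → Matrix (Fin d) (Fin d) ℝ, (∀ n, A n ∈ 𝓐) →
          ∃ B : ℕ → Matrix (Fin d) (Fin d) ℝ, (∀ n, B n ∈ 𝓑) ∧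
            ∃ C : ℝ, ∀ n, 1 ≤ n → N (prodSeq A B n) ≤ C) ∧
        ¬ ∃ C : ℝ, 0 < C ∧ ∀ A : ℕ → Matrix (Fin d) (Fin d) ℝ, (∀ n, A n ∈ 𝓐) →
          ∃ B : ℕ → Matrix (Fin d) (Fin d) ℝ, (∀ n, B n ∈ 𝓑) ∧
            ∀ n, 1 ≤ n → N (prodSeq A B n) ≤ C := by
  refine ⟨2, {mX, mV}, {1, mG}, by norm_num, Set.toFinite _, ⟨mX, by simp⟩, Set.toFinite _,
    ⟨1, by simp⟩, ?_⟩
  intro N hN
  constructor
  · intro A hA
    have hA' : ∀ n, A n = mX ∨ A n = mV := fun n => by simpa using hA n
    obtain ⟨B, hB, C, hC⟩ := cond_H hN.nonneg A hA'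
    exact ⟨B, fun n => by simpa using hB n, C, fun n _ => hC n⟩
  · rintro ⟨C, hC0, hC⟩
    obtain ⟨K1, hK1, hb1⟩ := entry_bound hN (0 : Fin 2) (0 : Fin 2)
    obtain ⟨K2, hK2, hb2⟩ := entry_bound hN (1 : Fin 2) (0 : Fin 2)
    obtain ⟨m, hm⟩ := pow_unbounded_of_one_lt ((K1 + K2) * C + 1) (by norm_num : (1 : ℝ) < 2)
    have hm' : (K1 + K2) * C + 1 < 2 ^ (m + 1) :=
      lt_trans hm (pow_lt_pow_right₀ (by norm_num) (Nat.lt_succ_self m))
    obtain ⟨B, hB, hbd⟩ := hC (perSeq (m + 1)) (fun n => by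
      unfold perSeq; split_ifs <;> simp)
    have hB' : ∀ n, B n = 1 ∨ B n = mG := fun n => by simpa using hB n
    obtain ⟨n, hn, hlarge⟩ := large_entry (m + 1) (by omega) B hB'
    have hle := hbd n hn
    have e1 := hb1 (prodSeq (perSeq (m + 1)) B n)
    have e2 := hb2 (prodSeq (perSeq (m + 1)) B n)
    have n0 := hN.nonneg (prodSeq (perSeq (m + 1)) B n)
    have f1 : K1 * N (prodSeq (perSeq (m + 1)) B n) ≤ K1 * C := mul_le_mul_of_nonneg_left hle hK1
    have f2 : K2 * N (prodSeq (perSeq (m + 1)) B n) ≤ K2 * C := mul_le_mul_of_nonneg_left hle hK2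
    have g1 : 0 ≤ K1 * C := mul_nonneg hK1 hC0.le
    have g2 : 0 ≤ K2 * C := mul_nonneg hK2 hC0.le
    rcases hlarge with h | h
    · nlinarith
    · nlinarith

end Pool.Agent.Results.MP_8c8deb_an.NoUniformBound
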